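import Pool.Agent.Lib.MP_a3e05c_co.CK.Small

/-!
# EULER, block CK (cocktail party graph): the rational inequalities for `d = 4, .., 20`
-/

namespace MP_a3e05c_co.CK

/-- the inequality between the chain bound and the lower bound `v` for the number of regular
tournaments with `2 m + 1` vertices -/
def Chk (m v : ℕ) : Prop :=
  0 < chainQ m ∧ chainQ m ^ (2 * m + 1) ≤ ((v : ℚ) / 2 ^ ((2 * m + 1) * (2 * m + 1 - 1) / 2)) ^ (2 * m + 2)

instance (m v : ℕ) : Decidable (Chk m v) := inferInstanceAs (Decidable (_ ∧ _))

theorem chk2 : Chk 2 24 := by decide +kernel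
theorem chk3 : Chk 3 2640 := by decide +kernel
theorem chk4 : Chk 4 3230080 := by decide +kernel
theorem chk5 : Chk 5 48251508480 := by decide +kernel
theorem chk6 : Chk 6 9307700611292160 := by decide +kernel
theorem chk7 : Chk 7 24061983498249428379648 := by decide +kernel
theorem chk8 : Chk 8 855847205541481495117975879680 := by decide +kernel
theorem chk9 : Chk 9 427102009099124449965536944854574242240 := by decide +kernel
theorem chk10 : Chk 10 3035890034606593848108396779148026682657839269520 := by decide +kernel

end MP_a3e05c_co.CK
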