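import Pool.Agent.Lib.MP_a3e05c_co.CK.Large
import Pool.Agent.Lib.MP_a3e05c_co.CK.Check
import Pool.Agent.Lib.MP_a3e05c_co.RTK.Num
import Pool.Agent.Lib.MP_a3e05c_co.RT.Final

/-!
# EULER, block CK: the cocktail party graph, every even degree
-/

namespace MP_a3e05c_co.CK

open KL

private theorem of_chk {m v : ℕ} (hm : 1 ≤ m) (h : Chk m v) (hv : v ≤ RT (2 * m + 1))
    (hv0 : 0 < v) : Cocktail (2 * m) :=
  cocktail_small hm v hv hv0 h.1 h.2

/-- **The exceptional graph of the regular case**: `K_(d+2)` minus a perfect matching. -/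
theorem cocktail {d : ℕ} (hd4 : 4 ≤ d) (hde : Even d) : Cocktail d := by
  obtain ⟨m, hm⟩ := hde
  have hd : d = 2 * m := by omega
  rw [hd]
  rcases le_or_gt 11 m with h | h
  · apply cocktail_large h
    have h1 := RT.PK_low (2 * m + 1) (odd_two_mul_add_one m) (by omega)
    push_cast at h1
    exact h1
  · have hm2 : 2 ≤ m := by omega
    interval_cases m
    · exact of_chk (by norm_num) chk2 RTK.RT_5 (by norm_num)
    · exact of_chk (by norm_num) chk3 RTK.RT_7 (by norm_num)
    · exact of_chk (by norm_num) chk4 RTK.RT_9 (by norm_num)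
    · exact of_chk (by norm_num) chk5 RTK.RT_11 (by norm_num)
    · exact of_chk (by norm_num) chk6 RTK.RT_13 (by norm_num)
    · exact of_chk (by norm_num) chk7 RTK.RT_15 (by norm_num)
    · exact of_chk (by norm_num) chk8 RTK.RT_17 (by norm_num)
    · exact of_chk (by norm_num) chk9 RTK.RT_19 (by norm_num)
    · exact of_chk (by norm_num) chk10 RTK.RT_21 (by norm_num)

end MP_a3e05c_co.CK
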