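import Pool.Agent.Lib.MP_a3e05c_co.CK.Struct

/-!
# EULER, block CK (cocktail party graph): the first factor

`ga (2 m) m = ∑_(i ≤ m) bb i * bb (m - i) * x ^ i ≤ √2 * bb m * (1 + 1 / (25 m))` for `m ≥ 11`,
`x = (m - 1) / (2 m - 1)`.
-/

open Finset

namespace MP_a3e05c_co.CK

open KL

theorem ga_top_eq {m : ℕ} (hm : 1 ≤ m) : ga (2 * m) m =
    ∑ i ∈ range (m + 1), bb i * bb (m - i) * (((m : ℝ) - 1) / (2 * m - 1)) ^ i := by
  have hm1 : (1 : ℝ) ≤ m := by exact_mod_cast hm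
  have h1 : rh (2 * m) (2 * m - 1) = ((m : ℝ) - 1) / (2 * m - 1) := by
    unfold rh
    rw [Nat.cast_sub (by omega)]
    push_cast
    have h2 : (2 * (m : ℝ) - 1) ≠ 0 := by linarith
    have h3 : (2 * (m : ℝ) - (2 * m - 1) + 1) = 2 := by ring
    rw [h3]
    field_simp
    ring
  unfold ga
  rw [FF_even, if_neg (by omega), h1, Nat.sub_self, Nat.zero_div, FFG_bn]
  refine sum_congr rfl fun i hi => ?_
  have hi' : i ≤ m := by
    have := mem_range.1 hi
    omega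
  have h2 := FFG_J_eq i (m - i)
  have h3 : i + (m - i) = m := by omega
  rw [h3] at h2
  rw [zero_add, ← h2]
  ring

theorem bb_mul_le (a b : ℕ) : bb a * bb b ≤ bb (a + b) := by
  induction a with
  | zero =>
    rw [zero_add]
    simp [bb]
  | succ a ih =>
    have h1 := bb_succ a
    have h2 := bb_succ (a + b)
    have hb := bb_pos b
    have hab := bb_pos (a + b)
    have h3 : a + 1 + b = a + b + 1 := by ring
    rw [h3]
    push_cast at h2
    have e1 : bb (a + 1) = bb a * ((2 * a + 1) / (2 * a + 2)) := by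
      rw [← mul_div_assoc, eq_div_iff (by positivity), h1]
    have e2 : bb (a + b + 1) = bb (a + b) * ((2 * (a + b) + 1) / (2 * (a + b) + 2)) := by
      rw [← mul_div_assoc, eq_div_iff (by positivity), h2]
    rw [e1, e2]
    have h4 : (2 * (a : ℝ) + 1) / (2 * a + 2) ≤ (2 * (a + b) + 1) / (2 * (a + b) + 2) := by
      rw [div_le_div_iff₀ (by positivity) (by positivity)]
      have hb0 : (0 : ℝ) ≤ b := Nat.cast_nonneg b
      nlinarith
    have h5 : 0 ≤ (2 * (a : ℝ) + 1) / (2 * a + 2) := by positivity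
    calc bb a * ((2 * a + 1) / (2 * a + 2)) * bb b =
        bb a * bb b * ((2 * a + 1) / (2 * a + 2)) := by ring
      _ ≤ bb (a + b) * ((2 * a + 1) / (2 * a + 2)) := mul_le_mul_of_nonneg_right ih h5
      _ ≤ _ := mul_le_mul_of_nonneg_left h4 hab.le

/-- the coefficients with small index -/
theorem coef_le {m : ℕ} (hm : 2 ≤ m) (i : ℕ) (hi : 2 * i ≤ m) :
    bb (m - i) * ((2 * (m : ℝ) - 2) / (2 * m - 1)) ^ i ≤
      bb m * (1 + 3 / 5 * (i * (i - 1)) / (m : ℝ) ^ 2) := by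
  have hm1 : (2 : ℝ) ≤ m := by exact_mod_cast hm
  have hbm := bb_pos m
  induction i with
  | zero => simp
  | succ i ih =>
    have ih' := ih (by omega)
    have hb := bb_succ (m - (i + 1))
    have h1 : m - (i + 1) + 1 = m - i := by omega
    have hile : 2 * ((i : ℝ) + 1) ≤ m := by exact_mod_cast hi
    have hi0 : (0 : ℝ) ≤ i := Nat.cast_nonneg i
    rw [h1, Nat.cast_sub (by omega)] at hb
    push_cast at hb
    have h2 : (0 : ℝ) < 2 * (m - (i + 1)) + 1 := by linarith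
    have e1 : bb (m - (i + 1)) = bb (m - i) * ((2 * (m - (i + 1)) + 2) / (2 * ((m : ℝ) - (i + 1)) + 1)) := by
      rw [← mul_div_assoc, eq_div_iff h2.ne', hb]
    have h3 : (0 : ℝ) < 2 * m - 1 := by linarith
    have h4 : 0 ≤ (2 * ((m : ℝ) - (i + 1)) + 2) / (2 * ((m : ℝ) - (i + 1)) + 1) *
        ((2 * (m : ℝ) - 2) / (2 * m - 1)) :=
      mul_nonneg (div_nonneg (by linarith) h2.le) (div_nonneg (by linarith) h3.le)
    have h5 : bb (m - (i + 1)) * ((2 * (m : ℝ) - 2) / (2 * m - 1)) ^ (i + 1) ≤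
        bb m * (1 + 3 / 5 * (i * (i - 1)) / (m : ℝ) ^ 2) *
        ((2 * ((m : ℝ) - (i + 1)) + 2) / (2 * ((m : ℝ) - (i + 1)) + 1) *
          ((2 * (m : ℝ) - 2) / (2 * m - 1))) := by
      rw [e1, pow_succ]
      refine le_trans (le_of_eq ?_) (mul_le_mul_of_nonneg_right ih' h4)
      ring
    refine h5.trans ?_
    rw [mul_assoc]
    refine mul_le_mul_of_nonneg_left ?_ hbm.le
    push_cast
    have e2 : (2 * ((m : ℝ) - (i + 1)) + 2) / (2 * ((m : ℝ) - (i + 1)) + 1) *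
          ((2 * (m : ℝ) - 2) / (2 * m - 1)) =
        1 + (2 * i - 1) / ((2 * ((m : ℝ) - (i + 1)) + 1) * (2 * m - 1)) := by
      field_simp
      ring
    rw [e2]
    have hmm : (0 : ℝ) < (m : ℝ) ^ 2 := by positivity
    have h6 : (2 * (m : ℝ) ^ 2) ≤ (2 * ((m : ℝ) - (i + 1)) + 1) * (2 * m - 1) := by nlinarith
    rcases Nat.eq_zero_or_pos i with h0 | hpos
    · subst h0
      have h7 : (2 * ((0 : ℕ) : ℝ) - 1) / ((2 * ((m : ℝ) - (((0 : ℕ) : ℝ) + 1)) + 1) * (2 * m - 1)) ≤ 0 := by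
        apply div_nonpos_of_nonpos_of_nonneg
        · norm_num
        · exact (mul_pos h2 h3).le
      have h8 : (3 : ℝ) / 5 * (((0 : ℕ) : ℝ) * (((0 : ℕ) : ℝ) - 1)) / (m : ℝ) ^ 2 = 0 := by simp
      have h9 : (3 : ℝ) / 5 * ((((0 : ℕ) : ℝ) + 1) * (((0 : ℕ) : ℝ) + 1 - 1)) / (m : ℝ) ^ 2 = 0 := by simp
      rw [h8, h9]
      linarith
    · have hi1 : (1 : ℝ) ≤ i := by exact_mod_cast hpos
      have h7 : (2 * (i : ℝ) - 1) / ((2 * ((m : ℝ) - (i + 1)) + 1) * (2 * m - 1)) ≤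
          (2 * i - 1) / (2 * (m : ℝ) ^ 2) := by
        apply div_le_div_of_nonneg_left (by linarith) (by positivity) h6
      have h8 : (3 : ℝ) / 5 * (i * (i - 1)) / (m : ℝ) ^ 2 ≤ 3 / 20 := by
        rw [div_le_iff₀ hmm]
        nlinarith
      have h9 : (0 : ℝ) ≤ (3 : ℝ) / 5 * (i * (i - 1)) / (m : ℝ) ^ 2 := by
        apply div_nonneg _ hmm.le
        nlinarith
      have h10 : (0 : ℝ) ≤ (2 * (i : ℝ) - 1) / (2 * (m : ℝ) ^ 2) := by
        apply div_nonneg (by linarith) (by positivity)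
      calc (1 + 3 / 5 * ((i : ℝ) * (i - 1)) / (m : ℝ) ^ 2) *
            (1 + (2 * i - 1) / ((2 * ((m : ℝ) - (i + 1)) + 1) * (2 * m - 1)))
          ≤ (1 + 3 / 5 * ((i : ℝ) * (i - 1)) / (m : ℝ) ^ 2) * (1 + (2 * i - 1) / (2 * (m : ℝ) ^ 2)) := by
            apply mul_le_mul_of_nonneg_left _ (by linarith)
            linarith
        _ ≤ 1 + 3 / 5 * ((i : ℝ) * (i - 1)) / (m : ℝ) ^ 2 +
            23 / 20 * ((2 * i - 1) / (2 * (m : ℝ) ^ 2)) := by nlinarith
        _ ≤ 1 + 3 / 5 * (((i : ℝ) + 1) * (i + 1 - 1)) / (m : ℝ) ^ 2 := by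
            have h11 : 1 + 3 / 5 * (((i : ℝ) + 1) * (i + 1 - 1)) / (m : ℝ) ^ 2 -
                (1 + 3 / 5 * ((i : ℝ) * (i - 1)) / (m : ℝ) ^ 2 +
                23 / 20 * ((2 * i - 1) / (2 * (m : ℝ) ^ 2))) =
                (1 / 20 * i + 23 / 40) / (m : ℝ) ^ 2 := by
              field_simp
              ring
            have h12 : 0 ≤ (1 / 20 * (i : ℝ) + 23 / 40) / (m : ℝ) ^ 2 := by positivity
            linarith

/-- the second factorial moment of the weights `bb i / 2 ^ i` -/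
theorem moment (M : ℕ) : ∑ i ∈ range (M + 1), ((i : ℝ) * (i - 1)) * (bb i * (1 / 2) ^ i) +
    (2 * M + 1) * (2 * M + 3) / 4 * (bb M * (1 / 2) ^ M) =
      3 / 4 * ∑ i ∈ range (M + 1), bb i * (1 / 2) ^ i := by
  induction M with
  | zero => simp
  | succ M ih =>
    rw [sum_range_succ, sum_range_succ _ (M + 1)]
    have h1 := bb_succ M
    have e1 : bb M * (2 * M + 1) = bb (M + 1) * (2 * M + 2) := h1.symm
    push_cast
    have e2 : (2 * (M : ℝ) + 1) * (2 * M + 3) / 4 * (bb M * (1 / 2) ^ M) =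
        (2 * (M : ℝ) + 3) / 4 * (bb (M + 1) * (2 * M + 2)) * (1 / 2) ^ M := by
      rw [← e1]
      ring
    rw [e2] at ih
    rw [pow_succ]
    linear_combination ih

theorem pow_two_ge (M : ℕ) (hM : 10 ≤ M) : 1024 * (2 * M + 1) ≤ 21 * 2 ^ M := by
  induction M, hM using Nat.le_induction with
  | base => norm_num
  | succ M hM ih =>
    rw [pow_succ]
    omega

/-- the first factor, large `m` -/
theorem ga_top_large {m : ℕ} (hm : 20 ≤ m) :
    ga (2 * m) m ≤ Real.sqrt 2 * bb m * (1 + 1 / (25 * m)) := by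
  have hmr : (20 : ℝ) ≤ m := by exact_mod_cast hm
  have hbm := bb_pos m
  set M := m / 2 with hM
  have hM2 : 2 * M ≤ m := by omega
  have hM3 : m ≤ 2 * M + 1 := by omega
  rw [ga_top_eq (by omega)]
  have hx : ((m : ℝ) - 1) / (2 * m - 1) = 1 / 2 * ((2 * (m : ℝ) - 2) / (2 * m - 1)) := by ring
  have hx0 : 0 ≤ ((m : ℝ) - 1) / (2 * m - 1) := div_nonneg (by linarith) (by linarith)
  have hx1 : ((m : ℝ) - 1) / (2 * m - 1) ≤ 1 / 2 := by
    rw [div_le_div_iff₀ (by linarith) (by norm_num)]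
    linarith
  rw [range_eq_Ico, ← sum_Ico_consecutive _ (Nat.zero_le (M + 1)) (by omega : M + 1 ≤ m + 1),
    ← range_eq_Ico]
  -- small indices
  have h1 : ∑ i ∈ range (M + 1), bb i * bb (m - i) * (((m : ℝ) - 1) / (2 * m - 1)) ^ i ≤
      bb m * (∑ i ∈ range (M + 1), bb i * (1 / 2) ^ i +
        3 / 5 / (m : ℝ) ^ 2 * ∑ i ∈ range (M + 1), ((i : ℝ) * (i - 1)) * (bb i * (1 / 2) ^ i)) := by
    rw [mul_sum, ← sum_add_distrib, mul_sum]
    refine sum_le_sum fun i hi => ?_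
    have hi' : 2 * i ≤ m := by
      have := mem_range.1 hi
      omega
    have h2 := coef_le (show 2 ≤ m by omega) i hi'
    have h3 : 0 ≤ bb i * (1 / 2) ^ i := by
      have := bb_pos i
      positivity
    rw [hx, mul_pow]
    calc bb i * bb (m - i) * ((1 / 2) ^ i * ((2 * (m : ℝ) - 2) / (2 * m - 1)) ^ i) =
        bb i * (1 / 2) ^ i * (bb (m - i) * ((2 * (m : ℝ) - 2) / (2 * m - 1)) ^ i) := by ring
      _ ≤ bb i * (1 / 2) ^ i * (bb m * (1 + 3 / 5 * (i * (i - 1)) / (m : ℝ) ^ 2)) :=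
        mul_le_mul_of_nonneg_left h2 h3
      _ = _ := by ring
  -- large indices
  have h2 : ∑ i ∈ Ico (M + 1) (m + 1), bb i * bb (m - i) * (((m : ℝ) - 1) / (2 * m - 1)) ^ i ≤
      bb m * (1 / 2) ^ M := by
    have h3 : ∀ i ∈ Ico (M + 1) (m + 1), bb i * bb (m - i) * (((m : ℝ) - 1) / (2 * m - 1)) ^ i ≤
        bb m * (1 / 2) ^ i := by
      intro i hi
      rw [mem_Ico] at hi
      have h4 := bb_mul_le i (m - i)
      have h5 : i + (m - i) = m := by omega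
      rw [h5] at h4
      exact mul_le_mul h4 (pow_le_pow_left₀ hx0 hx1 i) (pow_nonneg hx0 i) hbm.le
    refine (sum_le_sum h3).trans ?_
    rw [← mul_sum]
    refine mul_le_mul_of_nonneg_left ?_ hbm.le
    have h4 : ∀ N : ℕ, M + 1 ≤ N → ∑ i ∈ Ico (M + 1) N, (1 / 2 : ℝ) ^ i ≤
        (1 / 2) ^ M - (1 / 2) ^ (N - 1) := by
      intro N hN
      induction N, hN using Nat.le_induction with
      | base => simp
      | succ N hN ih =>
        rw [sum_Ico_succ_top hN]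
        have h5 : (1 / 2 : ℝ) ^ (N - 1) = 2 * (1 / 2) ^ N := by
          obtain ⟨k, rfl⟩ : ∃ k, N = k + 1 := ⟨N - 1, by omega⟩
          rw [Nat.add_sub_cancel, pow_succ]
          ring
        rw [h5] at ih
        rw [Nat.add_sub_cancel]
        linarith
    have h5 := h4 (m + 1) (by omega)
    have h6 : (0 : ℝ) ≤ (1 / 2) ^ (m + 1 - 1) := by positivity
    linarith
  -- the sums
  set S0 := ∑ i ∈ range (M + 1), bb i * (1 / 2 : ℝ) ^ i with hS0
  have h3 : S0 ≤ Real.sqrt 2 := by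
    have h4 := FFG_series M (1 / 2) (by norm_num) (by norm_num)
    apply Real.le_sqrt_of_sq_le
    linarith
  have h4 : ∑ i ∈ range (M + 1), ((i : ℝ) * (i - 1)) * (bb i * (1 / 2) ^ i) ≤ 3 / 4 * S0 := by
    have h5 := moment M
    have h6 : 0 ≤ (2 * (M : ℝ) + 1) * (2 * M + 3) / 4 * (bb M * (1 / 2) ^ M) := by
      have := bb_pos M
      positivity
    linarith
  have h5 : (1 / 2 : ℝ) ^ M ≤ 21 / 1024 / m := by
    have h6 := pow_two_ge M (by omega)
    have h7 : (1024 : ℝ) * m ≤ 21 * 2 ^ M := by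
      have h8 : 1024 * m ≤ 21 * 2 ^ M := le_trans (by omega) h6
      exact_mod_cast h8
    rw [one_div, inv_pow, div_div, inv_eq_one_div, div_le_div_iff₀ (by positivity) (by positivity)]
    linarith
  have hs2 : (1.414 : ℝ) ≤ Real.sqrt 2 := Real.le_sqrt_of_sq_le (by norm_num)
  have h6 : 3 / 5 / (m : ℝ) ^ 2 * ∑ i ∈ range (M + 1), ((i : ℝ) * (i - 1)) * (bb i * (1 / 2) ^ i) ≤
      9 / 20 / (m : ℝ) ^ 2 * Real.sqrt 2 := by
    calc 3 / 5 / (m : ℝ) ^ 2 * ∑ i ∈ range (M + 1), ((i : ℝ) * (i - 1)) * (bb i * (1 / 2) ^ i)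
        ≤ 3 / 5 / (m : ℝ) ^ 2 * (3 / 4 * Real.sqrt 2) := by
          apply mul_le_mul_of_nonneg_left _ (by positivity)
          linarith
      _ = _ := by ring
  have h7 : 9 / 20 / (m : ℝ) ^ 2 * Real.sqrt 2 + 21 / 1024 / m ≤ Real.sqrt 2 * (1 / (25 * m)) := by
    have h8 : 9 / 20 / (m : ℝ) ^ 2 ≤ 9 / 400 / m := by
      rw [div_div, div_div, div_le_div_iff₀ (by positivity) (by positivity)]
      nlinarith
    have h9 : 9 / 20 / (m : ℝ) ^ 2 * Real.sqrt 2 ≤ 9 / 400 / m * Real.sqrt 2 :=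
      mul_le_mul_of_nonneg_right h8 (Real.sqrt_nonneg 2)
    have h10 : Real.sqrt 2 * (1 / (25 * m)) - 9 / 400 / m * Real.sqrt 2 - 21 / 1024 / m =
        (7 / 400 * Real.sqrt 2 - 21 / 1024) / m := by
      field_simp
      ring
    have h11 : 0 ≤ (7 / 400 * Real.sqrt 2 - 21 / 1024) / m := by
      apply div_nonneg _ (by linarith)
      linarith
    linarith
  have h8 : bb m * (S0 + 3 / 5 / (m : ℝ) ^ 2 *
      ∑ i ∈ range (M + 1), ((i : ℝ) * (i - 1)) * (bb i * (1 / 2) ^ i)) + bb m * (1 / 2) ^ M ≤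
      bb m * (Real.sqrt 2 + Real.sqrt 2 * (1 / (25 * m))) := by
    rw [← mul_add]
    apply mul_le_mul_of_nonneg_left _ hbm.le
    linarith
  refine (add_le_add h1 h2).trans (h8.trans (le_of_eq ?_))
  ring

/-! ### Small `m` -/

/-- central binomial coefficients divided by `4 ^ n` -/
def bq : ℕ → ℚ
  | 0 => 1
  | n + 1 => bq n * ((2 * n + 1) / (2 * n + 2))

theorem bq_cast (n : ℕ) : ((bq n : ℚ) : ℝ) = bb n := by
  induction n with
  | zero => simp [bq, bb]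
  | succ n ih =>
    have h := bb_succ n
    show ((bq n * ((2 * n + 1) / (2 * n + 2)) : ℚ) : ℝ) = _
    push_cast
    rw [ih, ← mul_div_assoc, div_eq_iff (by positivity), h]

/-- partial sums of `∑ bb i * bb (m - i) * x ^ i` -/
def fs (m : ℕ) : ℕ → ℚ
  | 0 => 0
  | j + 1 => fs m j + bq j * bq (m - j) * (((m : ℚ) - 1) / (2 * m - 1)) ^ j

theorem fs_cast (m j : ℕ) : ((fs m j : ℚ) : ℝ) =
    ∑ i ∈ range j, bb i * bb (m - i) * (((m : ℝ) - 1) / (2 * m - 1)) ^ i := by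
  induction j with
  | zero => simp [fs]
  | succ j ih =>
    rw [sum_range_succ, ← ih, ← bq_cast, ← bq_cast]
    show ((fs m j + bq j * bq (m - j) * (((m : ℚ) - 1) / (2 * m - 1)) ^ j : ℚ) : ℝ) = _
    push_cast
    rfl

theorem ga_top_of_check {m : ℕ} (hm : 1 ≤ m)
    (h : (fs m (m + 1)) ^ 2 ≤ 2 * (bq m * (1 + 1 / (25 * (m : ℚ)))) ^ 2) :
    ga (2 * m) m ≤ Real.sqrt 2 * bb m * (1 + 1 / (25 * m)) := by
  have hbm := bb_pos m
  have h1 : ((fs m (m + 1) : ℚ) : ℝ) ^ 2 ≤ 2 * (bb m * (1 + 1 / (25 * m))) ^ 2 := by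
    have h0 : (((fs m (m + 1)) ^ 2 : ℚ) : ℝ) ≤ ((2 * (bq m * (1 + 1 / (25 * (m : ℚ)))) ^ 2 : ℚ) : ℝ) :=
      Rat.cast_le.2 h
    push_cast at h0
    rw [bq_cast] at h0
    exact h0
  rw [fs_cast, ← ga_top_eq hm] at h1
  have h2 : 0 ≤ Real.sqrt 2 * (bb m * (1 + 1 / (25 * m))) := by positivity
  have h3 : ga (2 * m) m ^ 2 ≤ (Real.sqrt 2 * (bb m * (1 + 1 / (25 * m)))) ^ 2 := by
    rw [mul_pow, Real.sq_sqrt (by norm_num)]
    exact h1
  have h4 := abs_le_of_sq_le_sq h3 h2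
  calc ga (2 * m) m ≤ Real.sqrt 2 * (bb m * (1 + 1 / (25 * m))) := (le_abs_self _).trans h4
    _ = _ := by ring

/-- **The first factor.** -/
theorem ga_top_le {m : ℕ} (hm : 11 ≤ m) :
    ga (2 * m) m ≤ Real.sqrt 2 * bb m * (1 + 1 / (25 * m)) := by
  rcases le_or_gt 20 m with h | h
  · exact ga_top_large h
  · apply ga_top_of_check (by omega)
    interval_cases m <;> decide +kernel

end MP_a3e05c_co.CK
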