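import Pool.Agent.Lib.MP_a3e05c_co.CK.Struct

/-!
# EULER, block CK (cocktail party graph): the logarithm of the product of the factors
-/

open Finset Real

namespace MP_a3e05c_co.CK

open KL

/-- the two logarithms of the pair with index `t` (`2 m - 2 t` other vertices), `d = 2 m` -/
noncomputable def TT (d t : ℝ) : ℝ :=
  -log (1 - (d - 2 * t) * (d - 2 * t - 1) / ((d - 1) ^ 2 * (2 * t + 1))) +
    -log (1 - (d - 2 * t) * (d - 2 * t - 2) / ((d - 1) ^ 2 * (2 * t + 2)))

theorem neg_log_le {z D : ℝ} (hD : 1 < D) (h0 : 0 ≤ z) (h1 : z ≤ 1 / D) :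
    -log (1 - z) ≤ z + (D + 1) / (2 * (D - 1)) * z ^ 2 := by
  have hD0 : 0 < D := by linarith
  have hD1 : 0 < D - 1 := by linarith
  have hz1 : z < 1 := lt_of_le_of_lt h1 (by rw [div_lt_one hD0]; exact hD)
  have h2 := abs_log_sub_add_sum_range_le (x := z) (by rw [abs_of_nonneg h0]; exact hz1) 2
  rw [abs_le] at h2
  have h3 := h2.1
  rw [abs_of_nonneg h0] at h3
  simp only [sum_range_succ, sum_range_zero] at h3
  norm_num at h3
  have h4 : z ^ 3 / (1 - z) ≤ z ^ 2 * (1 / (D - 1)) := by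
    rw [div_le_iff₀ (by linarith)]
    have h5 : z * D ≤ 1 := by
      rw [le_div_iff₀ hD0] at h1
      exact h1
    have h6 : z ≤ 1 / (D - 1) * (1 - z) := by
      rw [one_div, inv_mul_eq_div, le_div_iff₀ hD1]
      linarith
    calc z ^ 3 = z ^ 2 * z := by ring
      _ ≤ z ^ 2 * (1 / (D - 1) * (1 - z)) := mul_le_mul_of_nonneg_left h6 (by positivity)
      _ = _ := by ring
  have h7 : (D + 1) / (2 * (D - 1)) * z ^ 2 = z ^ 2 / 2 + z ^ 2 * (1 / (D - 1)) := by
    field_simp
    ring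
  rw [h7]
  linarith

/-- one pair -/
theorem TT_le {d t : ℝ} (ht : 1 ≤ t) (htd : 2 * t + 2 ≤ d) :
    TT d t ≤ log (t + 1) - log t - 4 * log (d / (d - 1)) +
      (4 * t / d ^ 2 + (d - 1) / d ^ 2 * (1 / (2 * t) + 2 / (2 * t + 1))) +
      (d + 1) / (2 * (d - 1)) * ((8 * t ^ 2 + 6 * (d - 1) + 3 / 2 * (d - 1) ^ 2 *
        (1 / t - 1 / (t + 1))) / d ^ 4) := by
  have hd : 4 ≤ d := by linarith
  have hd0 : 0 < d := by linarith
  have hd1 : 0 < d - 1 := by linarith
  have ht0 : 0 < t := by linarith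
  set z : ℝ := 2 * t / d ^ 2 + (d - 1) / (2 * t * d ^ 2) with hz
  set z' : ℝ := 2 * t / d ^ 2 + 2 * (d - 1) / (d ^ 2 * (2 * t + 1)) with hz'
  have e1 : 1 - (d - 2 * t) * (d - 2 * t - 1) / ((d - 1) ^ 2 * (2 * t + 1)) =
      2 * t / (2 * t + 1) * (d / (d - 1)) ^ 2 * (1 - z) := by
    rw [hz]
    field_simp
    ring
  have e2 : 1 - (d - 2 * t) * (d - 2 * t - 2) / ((d - 1) ^ 2 * (2 * t + 2)) =
      (2 * t + 1) / (2 * t + 2) * (d / (d - 1)) ^ 2 * (1 - z') := by
    rw [hz']
    field_simp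
    ring
  have hz0 : 0 ≤ z := by rw [hz]; positivity
  have hz'0 : 0 ≤ z' := by rw [hz']; positivity
  have hz1 : z ≤ 1 / d := by
    have h1 : 1 / d - z = (2 * t - 1) * (d - 1 - 2 * t) / (2 * t * d ^ 2) := by
      rw [hz]
      field_simp
      ring
    have h2 : 0 ≤ (2 * t - 1) * (d - 1 - 2 * t) / (2 * t * d ^ 2) := by
      apply div_nonneg _ (by positivity)
      apply mul_nonneg <;> linarith
    linarith
  have hz'1 : z' ≤ 1 / d := by
    have h1 : 1 / d - z' = (2 * t - 1) * (d - 2 - 2 * t) / (d ^ 2 * (2 * t + 1)) := by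
      rw [hz']
      field_simp
      ring
    have h2 : 0 ≤ (2 * t - 1) * (d - 2 - 2 * t) / (d ^ 2 * (2 * t + 1)) := by
      apply div_nonneg _ (by positivity)
      apply mul_nonneg <;> linarith
    linarith
  have hlt : 1 / d < 1 := by
    rw [div_lt_one hd0]
    linarith
  have l1 := neg_log_le (by linarith : 1 < d) hz0 hz1
  have l2 := neg_log_le (by linarith : 1 < d) hz'0 hz'1
  have hsq : z ^ 2 + z' ^ 2 ≤ (8 * t ^ 2 + 6 * (d - 1) + 3 / 2 * (d - 1) ^ 2 *
      (1 / t - 1 / (t + 1))) / d ^ 4 := by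
    have h1 : z ^ 2 = (4 * t ^ 2 + 2 * (d - 1) + (d - 1) ^ 2 * (1 / (4 * t ^ 2))) / d ^ 4 := by
      rw [hz]
      field_simp
      ring
    have h2 : z' ^ 2 = (4 * t ^ 2 + 4 * (d - 1) * (2 * t / (2 * t + 1)) +
        (d - 1) ^ 2 * (4 / (2 * t + 1) ^ 2)) / d ^ 4 := by
      rw [hz']
      field_simp
      ring
    rw [h1, h2, ← add_div]
    apply div_le_div_of_nonneg_right _ (by positivity)
    have h3 : 2 * t / (2 * t + 1) ≤ 1 := by
      rw [div_le_one (by positivity)]
      linarith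
    have h4 : 1 / (4 * t ^ 2) ≤ 1 / 2 * (1 / t - 1 / (t + 1)) := by
      have h5 : 1 / 2 * (1 / t - 1 / (t + 1)) = 1 / (2 * (t * (t + 1))) := by
        field_simp
        ring
      rw [h5]
      apply one_div_le_one_div_of_le (by positivity)
      nlinarith
    have h5 : 4 / (2 * t + 1) ^ 2 ≤ 1 / t - 1 / (t + 1) := by
      have h6 : 1 / t - 1 / (t + 1) = 1 / (t * (t + 1)) := by
        field_simp
        ring
      rw [h6, div_le_div_iff₀ (by positivity) (by positivity)]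
      nlinarith
    have h6 : (d - 1) ^ 2 * (1 / (4 * t ^ 2)) ≤ (d - 1) ^ 2 * (1 / 2 * (1 / t - 1 / (t + 1))) :=
      mul_le_mul_of_nonneg_left h4 (by positivity)
    have h7 : (d - 1) ^ 2 * (4 / (2 * t + 1) ^ 2) ≤ (d - 1) ^ 2 * (1 / t - 1 / (t + 1)) :=
      mul_le_mul_of_nonneg_left h5 (by positivity)
    have h8 : 4 * (d - 1) * (2 * t / (2 * t + 1)) ≤ 4 * (d - 1) * 1 :=
      mul_le_mul_of_nonneg_left h3 (by linarith)
    linarith
  have hκ : 0 ≤ (d + 1) / (2 * (d - 1)) := by positivity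
  have hsq' := mul_le_mul_of_nonneg_left hsq hκ
  have hlin : z + z' = 4 * t / d ^ 2 + (d - 1) / d ^ 2 * (1 / (2 * t) + 2 / (2 * t + 1)) := by
    rw [hz, hz']
    field_simp
    ring
  have hdd : 0 < d / (d - 1) := by positivity
  have h1z : 0 < 1 - z := by linarith
  have h1z' : 0 < 1 - z' := by linarith
  unfold TT
  have l3 : log (2 * t / (2 * t + 1)) = log (2 * t) - log (2 * t + 1) :=
    log_div (by positivity) (by positivity)
  have l4 : log ((2 * t + 1) / (2 * t + 2)) = log (2 * t + 1) - log (2 * t + 2) :=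
    log_div (by positivity) (by positivity)
  rw [e1, e2, log_mul (by positivity) h1z.ne', log_mul (by positivity) (by positivity),
    log_mul (by positivity) h1z'.ne', log_mul (by positivity) (by positivity), log_pow, l3, l4]
  have h9 : log (2 * t + 2) = log 2 + log (t + 1) := by
    rw [← log_mul (by norm_num) (by positivity)]
    congr 1
    ring
  have h10 : log (2 * t) = log 2 + log t := log_mul (by norm_num) ht0.ne'
  rw [h9, h10]
  push_cast
  linarith

theorem log_step {u : ℝ} (hu : 0 < u) : 2 / (2 * u + 1) ≤ log (u + 1) - log u := by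
  have h3 := le_log_one_add_of_nonneg (x := 1 / u) (by positivity)
  have h4 : 1 + 1 / u = (u + 1) / u := by
    field_simp
  have h5 : 2 * (1 / u) / (1 / u + 2) = 2 / (2 * u + 1) := by
    field_simp
    ring
  rw [h4, h5, log_div (by linarith) hu.ne'] at h3
  exact h3

/-- the harmonic sum -/
noncomputable def Hs (M : ℕ) : ℝ := ∑ t ∈ Ico 1 M, (1 / (2 * (t : ℝ)) + 2 / (2 * t + 1))

/-- the partial sums -/
theorem sum_TT_le {d : ℝ} (M : ℕ) (hM : 1 ≤ M) (hMd : 2 * (M : ℝ) ≤ d) :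
    ∑ t ∈ Ico 1 M, TT d t ≤ log M - 4 * ((M : ℝ) - 1) * log (d / (d - 1)) +
      (2 * M * (M - 1) / d ^ 2 + (d - 1) / d ^ 2 * Hs M) +
      (d + 1) / (2 * (d - 1)) * ((4 / 3 * M * (M - 1) * (2 * M - 1) + 6 * (M - 1) * (d - 1) +
        3 / 2 * (d - 1) ^ 2 * (1 - 1 / M)) / d ^ 4) := by
  induction M, hM using Nat.le_induction with
  | base => simp [Hs]
  | succ M hM ih =>
    push_cast at hMd
    have hM1 : (1 : ℝ) ≤ M := by exact_mod_cast hM
    have ih' := ih (by linarith)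
    have h1 := TT_le (d := d) (t := M) hM1 (by linarith)
    rw [sum_Ico_succ_top hM]
    have h2 : Hs (M + 1) = Hs M + (1 / (2 * (M : ℝ)) + 2 / (2 * M + 1)) := by
      unfold Hs
      rw [sum_Ico_succ_top hM]
    rw [h2]
    push_cast
    refine (add_le_add ih' h1).trans (le_of_eq ?_)
    have hM0 : (M : ℝ) ≠ 0 := by linarith
    have hM2 : (M : ℝ) + 1 ≠ 0 := by linarith
    have hd0 : d ≠ 0 := by linarith
    have h3 : (1 - 1 / ((M : ℝ) + 1)) = (1 - 1 / (M : ℝ)) + (1 / M - 1 / (M + 1)) := by ring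
    rw [h3]
    ring

theorem Hs_le (M : ℕ) (hM : 3 ≤ M) : Hs M ≤ 3 / 2 * log ((M : ℝ) - 1 / 4) + 31 / 100 := by
  induction M, hM using Nat.le_induction with
  | base =>
    have h1 : Hs 3 = 109 / 60 := by
      unfold Hs
      rw [sum_Ico_succ_top (by norm_num), sum_Ico_succ_top (by norm_num), Ico_self, sum_empty]
      norm_num
    rw [h1]
    have a1 := le_log_one_add_of_nonneg (x := 1 / 10) (by norm_num)
    have h2 : (1 + 1 / 10 : ℝ) ^ 10 * (1 + 6 / 100) ≤ ((3 : ℕ) : ℝ) - 1 / 4 := by norm_num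
    have a2 := le_log_one_add_of_nonneg (x := 6 / 100) (by norm_num)
    have h3 : log ((1 + 1 / 10 : ℝ) ^ 10 * (1 + 6 / 100)) ≤ log (((3 : ℕ) : ℝ) - 1 / 4) :=
      log_le_log (by norm_num) h2
    rw [log_mul (by norm_num) (by norm_num), log_pow] at h3
    norm_num at a1 a2 h3 ⊢
    linarith
  | succ M hM ih =>
    have hM3 : (3 : ℝ) ≤ M := by exact_mod_cast hM
    have h2 : Hs (M + 1) = Hs M + (1 / (2 * (M : ℝ)) + 2 / (2 * M + 1)) := by
      unfold Hs
      rw [sum_Ico_succ_top (by omega)]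
    rw [h2]
    push_cast
    have hu : 0 < (M : ℝ) - 1 / 4 := by linarith
    have h3 := log_step hu
    have h4 : (M : ℝ) - 1 / 4 + 1 = M + 1 - 1 / 4 := by ring
    have h5 : 2 / (2 * ((M : ℝ) - 1 / 4) + 1) = 4 / (4 * M + 1) := by
      rw [div_eq_div_iff (by linarith) (by linarith)]
      ring
    rw [h4, h5] at h3
    have h6 : 1 / (2 * (M : ℝ)) + 2 / (2 * M + 1) ≤ 3 / 2 * (4 / (4 * M + 1)) := by
      have h7 : 1 / (2 * (M : ℝ)) + 2 / (2 * M + 1) = (6 * M + 1) / (2 * M * (2 * M + 1)) := by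
        field_simp
        ring
      have h8 : 3 / 2 * (4 / (4 * (M : ℝ) + 1)) = 6 / (4 * M + 1) := by ring
      rw [h7, h8, div_le_div_iff₀ (by positivity) (by positivity)]
      nlinarith
    linarith

/-! ### The product -/

theorem pair_le {m j : ℕ} (hj : j < m) : fa (2 * m) j * ga (2 * m) j ≤
    exp (2 * log (bb m) + 1 / 2 * (if j = 0 then 0 else TT (2 * m) ((m : ℝ) - j))) := by
  have hbm := bb_pos m
  have hm1 : (1 : ℝ) ≤ m := by
    have : 1 ≤ m := by omega
    exact_mod_cast this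
  rcases Nat.eq_zero_or_pos j with h0 | hpos
  · subst h0
    have h1 : ∀ r : ℝ, FF (2 * 0) (2 * m - 2 * 0) (2 * ((0 : ℕ) : ℝ) * (1 - r)) = bb m := by
      intro r
      have h2 := FF_even 0 (2 * m - 2 * 0) r
      rw [h2]
      have h3 : (2 * m - 2 * 0) / 2 = m := by omega
      rw [h3, if_pos rfl]
      unfold BN
      simp
    have h4 : exp (2 * log (bb m)) = bb m * bb m := by
      rw [two_mul, exp_add, exp_log hbm]
    unfold fa ga
    rw [h1, if_pos rfl, mul_zero, add_zero, h4]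
  · have hj1 : (1 : ℝ) ≤ j := by exact_mod_cast hpos
    have hjm : (j : ℝ) + 1 ≤ m := by exact_mod_cast hj
    have hev : Even (2 * m) := even_two_mul m
    have hdiv : 2 * m / 2 = m := by omega
    have hd1 : (0 : ℝ) < 2 * m - 1 := by linarith
    -- the two arguments
    have hr1 : rh (2 * m) (2 * j) = (2 * (j : ℝ) - 1) / ((2 * m - 1) * (2 * m - 2 * j + 1)) := by
      unfold rh
      push_cast
      rfl
    have hr2 : rh (2 * m) (2 * j - 1) = (2 * (j : ℝ) - 2) / ((2 * m - 1) * (2 * m - 2 * j + 2)) := by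
      unfold rh
      rw [Nat.cast_sub (by omega)]
      push_cast
      congr 1
      · ring
      · ring
    have key : ∀ r : ℝ, 0 ≤ r → 2 * (j : ℝ) * r < 2 * m - 1 →
        FF (2 * j) (2 * m - 2 * j) (2 * j * (1 - r)) ≤
          exp (log (bb m) + 1 / 2 * (-log (1 - 2 * j * r / (2 * m - 1)))) := by
      intro r hr hlt
      have h1 := FF_le_G (d := 2 * m) (k := 2 * j) hev (by omega) (y := 2 * (j : ℝ) * r)
        (by positivity) (by push_cast; exact hlt)
      push_cast at h1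
      rw [hdiv] at h1
      have h2 : 2 * (j : ℝ) - 2 * j * r = 2 * j * (1 - r) := by ring
      rw [h2] at h1
      refine h1.trans (le_of_eq ?_)
      have hpos1 : 0 < 1 - 2 * (j : ℝ) * r / (2 * m - 1) := by
        have : 2 * (j : ℝ) * r / (2 * m - 1) < 1 := (div_lt_one hd1).2 hlt
        linarith
      rw [exp_add, exp_log hbm]
      congr 1
      have h3 : exp (1 / 2 * (-log (1 - 2 * j * r / (2 * m - 1)))) =
          (sqrt (1 - 2 * j * r / (2 * m - 1)))⁻¹ := by
        rw [← exp_log (sqrt_pos.2 hpos1), log_sqrt hpos1.le, ← exp_neg]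
        congr 1
        ring
      rw [h3, one_div]
    have hy1 : 0 ≤ rh (2 * m) (2 * j) := by
      rw [hr1]
      apply div_nonneg (by linarith)
      apply mul_nonneg <;> linarith
    have hy2 : 0 ≤ rh (2 * m) (2 * j - 1) := by
      rw [hr2]
      apply div_nonneg (by linarith)
      apply mul_nonneg <;> linarith
    have hx1 : 2 * (j : ℝ) * rh (2 * m) (2 * j) < 2 * m - 1 := by
      rw [hr1, mul_div_assoc', div_lt_iff₀ (mul_pos hd1 (by linarith))]
      nlinarith [mul_pos hd1 hd1, mul_nonneg (sub_nonneg.2 hj1) (sub_nonneg.2 hjm)]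
    have hx2 : 2 * (j : ℝ) * rh (2 * m) (2 * j - 1) < 2 * m - 1 := by
      rw [hr2, mul_div_assoc', div_lt_iff₀ (mul_pos hd1 (by linarith))]
      nlinarith [mul_pos hd1 hd1, mul_nonneg (sub_nonneg.2 hj1) (sub_nonneg.2 hjm)]
    have k1 := key _ hy1 hx1
    have k2 := key _ hy2 hx2
    have hf0 := fa_nonneg (d := 2 * m) (j := j) (by omega) (by omega)
    have hg0 := ga_nonneg (d := 2 * m) (j := j) (by omega) (by omega)
    rw [if_neg (by omega)]
    have h5 : exp (2 * log (bb m) + 1 / 2 * TT (2 * m) ((m : ℝ) - j)) =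
        exp (log (bb m) + 1 / 2 * (-log (1 - 2 * j * rh (2 * m) (2 * j) / (2 * m - 1)))) *
        exp (log (bb m) + 1 / 2 * (-log (1 - 2 * j * rh (2 * m) (2 * j - 1) / (2 * m - 1)))) := by
      rw [← exp_add]
      congr 1
      unfold TT
      have h6 : (2 * (m : ℝ) - 2 * (m - j)) * (2 * m - 2 * (m - j) - 1) /
          ((2 * m - 1) ^ 2 * (2 * (m - j) + 1)) = 2 * j * rh (2 * m) (2 * j) / (2 * m - 1) := by
        rw [hr1]
        have h7 : (2 * ((m : ℝ) - j) + 1) = 2 * m - 2 * j + 1 := by ring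
        rw [h7]
        have h8 : (2 * (m : ℝ) - 2 * j + 1) ≠ 0 := by linarith
        have h9 : (2 * (m : ℝ) - 1) ≠ 0 := hd1.ne'
        field_simp
        ring
      have h7 : (2 * (m : ℝ) - 2 * (m - j)) * (2 * m - 2 * (m - j) - 2) /
          ((2 * m - 1) ^ 2 * (2 * (m - j) + 2)) = 2 * j * rh (2 * m) (2 * j - 1) / (2 * m - 1) := by
        rw [hr2]
        have h7 : (2 * ((m : ℝ) - j) + 2) = 2 * m - 2 * j + 2 := by ring
        rw [h7]
        have h8 : (2 * (m : ℝ) - 2 * j + 2) ≠ 0 := by linarith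
        have h9 : (2 * (m : ℝ) - 1) ≠ 0 := hd1.ne'
        field_simp
        ring
      rw [h6, h7]
      ring
    rw [h5]
    exact mul_le_mul k1 k2 hg0 (exp_nonneg _)

/-- **The product of the factors of all pairs.** -/
theorem CP_le {m : ℕ} (hm : 1 ≤ m) : CP (2 * m) m ≤
    exp (2 * m * log (bb m) + 1 / 2 * ∑ t ∈ Ico 1 m, TT (2 * m) t) := by
  unfold CP
  have h1 : ∏ i ∈ range m, fa (2 * m) i * ga (2 * m) i ≤ ∏ i ∈ range m,
      exp (2 * log (bb m) + 1 / 2 * (if i = 0 then 0 else TT (2 * m) ((m : ℝ) - i))) := by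
    refine prod_le_prod (fun i hi => ?_) (fun i hi => pair_le (mem_range.1 hi))
    have hi' := mem_range.1 hi
    exact mul_nonneg (fa_nonneg (by omega) (by omega)) (ga_nonneg (by omega) (by omega))
  refine h1.trans (le_of_eq ?_)
  rw [← exp_sum, sum_add_distrib, sum_const, card_range, ← mul_sum, nsmul_eq_mul]
  congr 1
  congr 1
  · ring
  · congr 1
    have h2 : ∑ i ∈ range m, (if i = 0 then 0 else TT (2 * m) ((m : ℝ) - i)) =
        ∑ i ∈ Ico 1 m, TT (2 * m) ((m : ℝ) - i) := by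
      rw [range_eq_Ico, sum_eq_sum_Ico_succ_bot (by omega), if_pos rfl, zero_add]
      refine sum_congr rfl fun i hi => ?_
      rw [mem_Ico] at hi
      rw [if_neg (by omega)]
    rw [h2]
    have h3 := sum_Ico_reflect (fun i : ℕ => TT (2 * m) i) 1 (m := m) (n := m) (by omega)
    have h4 : m + 1 - m = 1 := by omega
    have h5 : m + 1 - 1 = m := by omega
    rw [h4, h5] at h3
    rw [← h3]
    refine sum_congr rfl fun i hi => ?_
    rw [mem_Ico] at hi
    rw [Nat.cast_sub (by omega)]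

end MP_a3e05c_co.CK
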