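import Pool.Agent.Lib.MP_a3e05c_co.CK.First
import Pool.Agent.Lib.MP_a3e05c_co.CK.Prod
import Pool.Agent.Lib.MP_a3e05c_co.NCS.Delta
import Pool.Agent.Lib.MP_a3e05c_co.KL.RegDefs

/-!
# EULER, block CK (cocktail party graph): large degree
-/

open Finset Real

namespace MP_a3e05c_co.CK

open KL

theorem log_bb_le (m : ℕ) : log (bb m) ≤ -(1 / 2) * log (π * (2 * (m : ℝ) + 1 / 2) / 2) :=
  NCS.log_cb_le m

/-- the final rational inequality -/
theorem final_rat {d : ℝ} (hd : 22 ≤ d) :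
    0 ≤ 8723 / 10000 / (d + 1) + 1 / (2 * d + 1) - 2 / 25 / d -
      (2 * d + 3) / (16 * (d + 1) * (2 * d + 1)) - 3 / (2 * d - 1) + 1 / 2 / d -
      (d + 1) * (d ^ 2 / 3 + 23 / 6 * d - 15 / 2) / (4 * d ^ 4) := by
  have hd0 : 0 < d := by linarith
  have h1 : 0 < 2 * d - 1 := by linarith
  have h2 : 8723 / 10000 / (d + 1) + 1 / (2 * d + 1) - 2 / 25 / d -
      (2 * d + 3) / (16 * (d + 1) * (2 * d + 1)) - 3 / (2 * d - 1) + 1 / 2 / d -
      (d + 1) * (d ^ 2 / 3 + 23 / 6 * d - 15 / 2) / (4 * d ^ 4) =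
      (8788 * d ^ 6 - 166050 * d ^ 5 - 82822 * d ^ 4 + 178075 * d ^ 3 + 114375 * d ^ 2 -
        41875 * d - 28125) / (15000 * (d + 1) * (2 * d + 1) * (2 * d - 1) * d ^ 4) := by
    obtain ⟨q, hq⟩ : ∃ q, q = 2 * d - 1 := ⟨_, rfl⟩
    have hq0 : 0 < q := by rw [hq]; exact h1
    have hdq : d = (q + 1) / 2 := by rw [hq]; ring
    rw [← hq, hdq]
    have e1 : (q + 1) / 2 + 1 = (q + 3) / 2 := by ring
    have e2 : 2 * ((q + 1) / 2) + 1 = q + 2 := by ring
    rw [e1, e2]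
    field_simp
    ring
  rw [h2]
  apply div_nonneg _ (by positivity)
  obtain ⟨t, rfl⟩ : ∃ t, d = t + 22 := ⟨d - 22, by ring⟩
  have ht : 0 ≤ t := by linarith
  have h3 : 8788 * (t + 22) ^ 6 - 166050 * (t + 22) ^ 5 - 82822 * (t + 22) ^ 4 +
      178075 * (t + 22) ^ 3 + 114375 * (t + 22) ^ 2 - 41875 * (t + 22) - 28125 =
      8788 * t ^ 6 + 993966 * t ^ 5 + 45452558 * t ^ 4 + 1060700219 * t ^ 3 +
        12969974157 * t ^ 2 + 73985664997 * t + 123171003045 := by ring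
  rw [h3]
  positivity

theorem main_ineq {m : ℕ} (hm : 11 ≤ m) :
    1 / 2 * log 2 + log (bb m) + 1 / (25 * m) +
      (2 * m * log (bb m) + 1 / 2 * ∑ t ∈ Ico 1 m, TT (2 * m) t) ≤
    (2 * (m : ℝ) + 2) * (NCS.mainR (2 * m + 1) / (2 * m + 1)) := by
  have hmr : (11 : ℝ) ≤ m := by exact_mod_cast hm
  have hpi := pi_pos
  obtain ⟨d, hd⟩ : ∃ d : ℝ, d = 2 * m := ⟨_, rfl⟩
  have hm2 : (m : ℝ) = d / 2 := by rw [hd]; ring
  have hd22 : 22 ≤ d := by linarith
  have hd0 : 0 < d := by linarith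
  -- the central binomial coefficient
  have h1 := log_bb_le m
  have h2 : π * (2 * (m : ℝ) + 1 / 2) / 2 = π * (d + 1) / 2 * (1 - 1 / (2 * (d + 1))) := by
    rw [hm2]
    field_simp
    ring
  have h3 : 0 < 1 - 1 / (2 * (d + 1)) := by
    have : 1 / (2 * (d + 1)) < 1 := by
      rw [div_lt_one (by positivity)]
      linarith
    linarith
  rw [h2, log_mul (by positivity) h3.ne'] at h1
  have h4 := neg_log_le (D := 2 * (d + 1)) (by linarith) (z := 1 / (2 * (d + 1)))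
    (by positivity) le_rfl
  have h5 : (1 / (2 * (d + 1)) + (2 * (d + 1) + 1) / (2 * (2 * (d + 1) - 1)) *
      (1 / (2 * (d + 1))) ^ 2) * ((d + 1) / 2) =
      1 / 4 + (2 * d + 3) / (16 * (d + 1) * (2 * d + 1)) := by
    have : 2 * (d + 1) - 1 = 2 * d + 1 := by ring
    rw [this]
    field_simp
    ring
  have h6 := mul_le_mul_of_nonneg_right h4 (show 0 ≤ (d + 1) / 2 by linarith)
  rw [h5] at h6
  -- the sum
  have h7 := sum_TT_le (d := 2 * (m : ℝ)) m (by omega) le_rfl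
  have h8 := Hs_le m (by omega)
  set a := log (d + 1) with ha
  have h9 : log ((m : ℝ) - 1 / 4) ≤ a - log 2 := by
    rw [ha, ← log_div (by positivity) (by norm_num)]
    apply log_le_log (by linarith)
    rw [hm2]
    linarith
  have h10 : (3.13 : ℝ) ≤ a := by
    have := NCS.log_23
    have h11 : log 23 ≤ a := log_le_log (by norm_num) (by linarith)
    linarith
  have hl2 := log_two_gt_d9
  have hl2' := log_two_lt_d9
  set Hb : ℝ := 3 / 2 * (a - log 2) + 31 / 100 with hHb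
  have hH : Hs m ≤ Hb := by linarith
  have hHb0 : 0 ≤ Hb := by linarith
  have h11 : (d - 1) / d ^ 2 * Hs m ≤ Hb / (d + 1) := by
    have h12 : (d - 1) / d ^ 2 ≤ 1 / (d + 1) := by
      rw [div_le_div_iff₀ (by positivity) (by positivity)]
      nlinarith
    calc (d - 1) / d ^ 2 * Hs m ≤ (d - 1) / d ^ 2 * Hb := by
          apply mul_le_mul_of_nonneg_left hH
          apply div_nonneg (by linarith) (by positivity)
      _ ≤ 1 / (d + 1) * Hb := mul_le_mul_of_nonneg_right h12 hHb0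
      _ = _ := by ring
  have h13 : (d + 1) / (2 * (d - 1)) * ((4 / 3 * (m : ℝ) * (m - 1) * (2 * m - 1) +
      6 * (m - 1) * (d - 1) + 3 / 2 * (d - 1) ^ 2 * (1 - 1 / m)) / d ^ 4) ≤
      2 * ((d + 1) * (d ^ 2 / 3 + 23 / 6 * d - 15 / 2) / (4 * d ^ 4)) := by
    have h14 : (4 / 3 * (m : ℝ) * (m - 1) * (2 * m - 1) +
      6 * (m - 1) * (d - 1) + 3 / 2 * (d - 1) ^ 2 * (1 - 1 / m)) ≤
      (d - 1) * (d ^ 2 / 3 + 23 / 6 * d - 15 / 2) := by
      have h15 : 0 ≤ 3 / 2 * (d - 1) ^ 2 * (1 / (m : ℝ)) := by positivity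
      have h16 : 4 / 3 * (m : ℝ) * (m - 1) * (2 * m - 1) + 6 * (m - 1) * (d - 1) +
          3 / 2 * (d - 1) ^ 2 = (d - 1) * (d ^ 2 / 3 + 23 / 6 * d - 15 / 2) := by
        rw [hm2]
        ring
      linarith
    have h15 : 0 < d - 1 := by linarith
    calc (d + 1) / (2 * (d - 1)) * ((4 / 3 * (m : ℝ) * (m - 1) * (2 * m - 1) +
      6 * (m - 1) * (d - 1) + 3 / 2 * (d - 1) ^ 2 * (1 - 1 / m)) / d ^ 4) ≤
        (d + 1) / (2 * (d - 1)) * ((d - 1) * (d ^ 2 / 3 + 23 / 6 * d - 15 / 2) / d ^ 4) := by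
          apply mul_le_mul_of_nonneg_left _ (by positivity)
          exact div_le_div_of_nonneg_right h14 (by positivity)
      _ = _ := by
        field_simp
        ring
  -- logarithms of quotients
  have h14 : 2 / (2 * d + 1) ≤ a - log d := log_step hd0
  have h15 : 2 / (2 * d - 1) ≤ log (d / (d - 1)) := by
    have h16 := log_step (u := d - 1) (by linarith)
    have h17 : 2 * (d - 1) + 1 = 2 * d - 1 := by ring
    have h18 : d - 1 + 1 = d := by ring
    rw [h17, h18] at h16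
    rw [log_div (by linarith) (by linarith)]
    exact h16
  have h16 : log (m : ℝ) = log d - log 2 := by
    rw [← log_div (by positivity) (by norm_num), hm2]
  have h17 := mul_le_mul_of_nonneg_left h15 (show 0 ≤ d - 2 by linarith)
  have h18 : (d - 2) * (2 / (2 * d - 1)) = 1 - 3 / (2 * d - 1) := by
    have h19 : 2 * d - 1 ≠ 0 := by linarith
    rw [eq_sub_iff_add_eq, mul_div_assoc', ← add_div, div_eq_one_iff_eq h19]
    ring
  rw [h18] at h17
  have hp := NCS.log_pi_half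
  have hlam : log (π * (d + 1) / 2) = log (π / 2) + a := by
    rw [ha, ← log_mul (by positivity) (by positivity)]
    congr 1
    ring
  rw [hlam] at h1
  -- the left side
  have h19 : (2 * (m : ℝ) + 1) * log (bb m) ≤ (2 * m + 1) * (-(1 / 2) * (log (π / 2) + a +
      log (1 - 1 / (2 * (d + 1))))) := mul_le_mul_of_nonneg_left h1 (by linarith)
  have h20 : (d + 2) * (NCS.mainR (d + 1) / (d + 1)) =
      -(1 / 2) * (d + 1) * (log (π / 2) + a) + (log (π / 2) + a) / 2 / (d + 1) +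
        1 / 2 * (a - 1) + (a - 1) / 2 / (d + 1) := by
    unfold NCS.mainR
    rw [hlam, ← ha]
    field_simp
    ring
  have h21 : 1 / (25 * (m : ℝ)) = 2 / 25 / d := by
    rw [hm2]
    field_simp
  have h22 : d * ((m : ℝ) - 1) / d ^ 2 = 1 / 2 - 1 / d := by
    rw [hm2]
    field_simp
  rw [← hd] at h7 h13 h19 ⊢
  rw [h20, h21]
  rw [h22, h16] at h7
  have h23 : ((m : ℝ) - 1) = (d - 2) / 2 := by rw [hm2]; ring
  have h24 : 4 * ((m : ℝ) - 1) * log (d / (d - 1)) = 2 * ((d - 2) * log (d / (d - 1))) := by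
    rw [h23]
    ring
  rw [h24] at h7
  have hfin := final_rat hd22
  -- collect the terms with `1 / (d + 1)`
  have h25 : 8723 / 10000 / (d + 1) ≤ (log (π / 2) + a) / 2 / (d + 1) + (a - 1) / 2 / (d + 1) -
      1 / 2 * (Hb / (d + 1)) := by
    have h26 : (log (π / 2) + a) / 2 / (d + 1) + (a - 1) / 2 / (d + 1) - 1 / 2 * (Hb / (d + 1)) =
        ((log (π / 2) + a) / 2 + (a - 1) / 2 - 1 / 2 * Hb) / (d + 1) := by ring
    rw [h26]
    apply div_le_div_of_nonneg_right _ (by linarith)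
    rw [hHb]
    norm_num at hl2 h10 hp ⊢
    linarith
  have h27 : (d + 1) * (-(1 / 2) * (log (π / 2) + a + log (1 - 1 / (2 * (d + 1))))) =
      -(1 / 2) * (d + 1) * (log (π / 2) + a) +
        -log (1 - 1 / (2 * (d + 1))) * ((d + 1) / 2) := by ring
  rw [h27] at h19
  have h28 : (d + 1) * log (bb m) = log (bb m) + d * log (bb m) := by ring
  rw [h28] at h19
  have h29 : 1 / 2 / d = 1 / 2 * (1 / d) := by ring
  have h30 : 1 / (2 * d + 1) = 1 / 2 * (2 / (2 * d + 1)) := by ring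
  rw [h29, h30] at hfin
  linarith

/-- **The cocktail party graph, degree at least 22.** -/
theorem cocktail_large {m : ℕ} (hm : 11 ≤ m)
    (hPK : exp (NCS.mainR (2 * m + 1)) ≤ PK (2 * m + 1)) : Cocktail (2 * m) := by
  intro V E _ _ _ _ hd hs hdeg hcard
  have hmr : (11 : ℝ) ≤ m := by exact_mod_cast hm
  have hbm := bb_pos m
  have h1 := chain_le hs (show 1 ≤ m by omega) hdeg hcard
  have h2 := ga_top_le hm
  have h3 := CP_le (show 1 ≤ m by omega)
  have h4 := ga_nonneg (d := 2 * m) (j := m) (by omega) le_rfl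
  have h5 : Real.sqrt 2 * bb m * (1 + 1 / (25 * m)) ≤
      exp (1 / 2 * log 2 + log (bb m) + 1 / (25 * m)) := by
    rw [exp_add, exp_add, exp_log hbm]
    have h6 : exp (1 / 2 * log 2) = Real.sqrt 2 := by
      rw [← exp_log (sqrt_pos.2 (by norm_num : (0 : ℝ) < 2)), log_sqrt (by norm_num)]
      congr 1
      ring
    rw [h6]
    apply mul_le_mul_of_nonneg_left _ (by positivity)
    have := add_one_le_exp (1 / (25 * (m : ℝ)))
    linarith
  have h6 : PA hd univ ≤ exp (1 / 2 * log 2 + log (bb m) + 1 / (25 * m)) *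
      exp (2 * m * log (bb m) + 1 / 2 * ∑ t ∈ Ico 1 m, TT (2 * m) t) := by
    refine h1.trans ?_
    calc ga (2 * m) m * CP (2 * m) m ≤
        ga (2 * m) m * exp (2 * m * log (bb m) + 1 / 2 * ∑ t ∈ Ico 1 m, TT (2 * m) t) :=
          mul_le_mul_of_nonneg_left h3 h4
      _ ≤ _ := mul_le_mul_of_nonneg_right (h2.trans h5) (exp_nonneg _)
  rw [← exp_add] at h6
  refine h6.trans (exp_le_exp.2 ?_)
  refine (main_ineq hm).trans ?_
  have hpk : 0 < PK (2 * m + 1) := lt_of_lt_of_le (exp_pos _) hPK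
  have h7 : NCS.mainR (2 * m + 1) ≤ log (PK (2 * m + 1)) := (le_log_iff_exp_le hpk).2 hPK
  unfold AA
  push_cast
  apply mul_le_mul_of_nonneg_left _ (by linarith)
  exact div_le_div_of_nonneg_right h7 (by linarith)

end MP_a3e05c_co.CK
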