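import Pool.Agent.Lib.MP_a3e05c_co.CK.First
import Pool.Agent.Lib.MP_a3e05c_co.KL.RegDefs

/-!
# EULER, block CK (cocktail party graph): small degree, exact rational arithmetic
-/

open Finset Real

namespace MP_a3e05c_co.CK

open KL

/-- partial sums of `BN` -/
def BNqA (K : ℕ) (σ : ℚ) (n : ℕ) : ℕ → ℚ
  | 0 => 0
  | i + 1 => BNqA K σ n i + (K.choose i : ℚ) * (1 - σ) ^ (K - i) * σ ^ i * bq (n + i)

theorem BNqA_cast (K : ℕ) (σ : ℚ) (n j : ℕ) : ((BNqA K σ n j : ℚ) : ℝ) =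
    ∑ i ∈ range j, (K.choose i : ℝ) * (1 - (σ : ℝ)) ^ (K - i) * (σ : ℝ) ^ i * bb (n + i) := by
  induction j with
  | zero => simp [BNqA]
  | succ j ih =>
    rw [sum_range_succ, ← ih, ← bq_cast]
    show ((BNqA K σ n j + (K.choose j : ℚ) * (1 - σ) ^ (K - j) * σ ^ j * bq (n + j) : ℚ) : ℝ) = _
    push_cast
    rfl

/-- `rh`, rational -/
def rhq (d j : ℕ) : ℚ := ((j : ℚ) - 1) / (((d : ℚ) - 1) * ((d : ℚ) - j + 1))

theorem rhq_cast (d j : ℕ) : ((rhq d j : ℚ) : ℝ) = rh d j := by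
  unfold rhq rh
  push_cast
  rfl

/-- the factor of one vertex, rational -/
def FFq (m j i : ℕ) : ℚ :=
  BNqA j (if j = 0 then 0 else 1 - rhq (2 * m) i) (m - j) (j + 1)

theorem FFq_cast (m j i : ℕ) : FF (2 * j) (2 * m - 2 * j) (2 * j * (1 - rh (2 * m) i)) =
    ((FFq m j i : ℚ) : ℝ) := by
  rw [FF_even]
  unfold FFq BN
  rw [BNqA_cast]
  have h1 : (2 * m - 2 * j) / 2 = m - j := by omega
  rw [h1]
  have h2 : (((if j = 0 then 0 else 1 - rhq (2 * m) i) : ℚ) : ℝ) =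
      if j = 0 then 0 else 1 - rh (2 * m) i := by
    split_ifs
    · simp
    · push_cast
      rw [rhq_cast]
  rw [h2]

/-- the product of the factors of the pairs, rational -/
def CPq (m : ℕ) : ℕ → ℚ
  | 0 => 1
  | j + 1 => CPq m j * (FFq m j (2 * j) * FFq m j (2 * j - 1))

theorem CPq_cast (m j : ℕ) : CP (2 * m) j = ((CPq m j : ℚ) : ℝ) := by
  induction j with
  | zero => simp [CP, CPq]
  | succ j ih =>
    unfold CP at ih ⊢
    rw [prod_range_succ, ih]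
    show _ = ((CPq m j * (FFq m j (2 * j) * FFq m j (2 * j - 1)) : ℚ) : ℝ)
    push_cast
    unfold fa ga
    rw [FFq_cast, FFq_cast]

/-- the chain bound, rational -/
def chainQ (m : ℕ) : ℚ := FFq m m (2 * m - 1) * CPq m m

theorem cocktail_small {m : ℕ} (hm : 1 ≤ m) (v : ℕ) (hv : v ≤ RT (2 * m + 1)) (hv0 : 0 < v)
    (h0 : 0 < chainQ m)
    (h : chainQ m ^ (2 * m + 1) ≤ ((v : ℚ) / 2 ^ ((2 * m + 1) * (2 * m + 1 - 1) / 2)) ^ (2 * m + 2)) :
    Cocktail (2 * m) := by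
  intro V E _ _ _ _ hd hs hdeg hcard
  have h1 := chain_le hs hm hdeg hcard
  have h2 : ga (2 * m) m * CP (2 * m) m = ((chainQ m : ℚ) : ℝ) := by
    unfold chainQ ga
    push_cast
    rw [CPq_cast, FFq_cast]
  rw [h2] at h1
  refine h1.trans ?_
  have hQ : (0 : ℝ) < ((chainQ m : ℚ) : ℝ) := by exact_mod_cast h0
  have hP : (v : ℝ) / 2 ^ ((2 * m + 1) * (2 * m + 1 - 1) / 2) ≤ PK (2 * m + 1) := by
    unfold PK
    apply div_le_div_of_nonneg_right _ (by positivity)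
    exact_mod_cast hv
  have hv' : (0 : ℝ) < v := by exact_mod_cast hv0
  have hP0 : (0 : ℝ) < (v : ℝ) / 2 ^ ((2 * m + 1) * (2 * m + 1 - 1) / 2) := by positivity
  have h3 : ((chainQ m : ℚ) : ℝ) ^ (2 * m + 1) ≤ PK (2 * m + 1) ^ (2 * m + 2) := by
    have h4 : ((chainQ m ^ (2 * m + 1) : ℚ) : ℝ) ≤
        ((((v : ℚ) / 2 ^ ((2 * m + 1) * (2 * m + 1 - 1) / 2)) ^ (2 * m + 2) : ℚ) : ℝ) :=
      Rat.cast_le.2 h
    push_cast at h4
    exact h4.trans (pow_le_pow_left₀ hP0.le hP _)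
  have hPK : 0 < PK (2 * m + 1) := hP0.trans_le hP
  have h5 := log_le_log (pow_pos hQ _) h3
  rw [log_pow, log_pow] at h5
  rw [← exp_log hQ, exp_le_exp]
  unfold AA
  push_cast at h5 ⊢
  rw [mul_div_assoc', le_div_iff₀ (by positivity)]
  linarith

end MP_a3e05c_co.CK
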