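import Pool.Agent.Lib.MP_a3e05c_co.KL.Step
import Pool.Agent.Lib.MP_a3e05c_co.KL.FFG

/-!
# EULER, block CK (cocktail party graph): the chain of deletions in pairs
-/

open Finset

namespace MP_a3e05c_co.CK

open KL

variable {V E : Type} [Fintype V] [DecidableEq V] [Fintype E] [DecidableEq E]

/-! ### Signs of the factors -/

/-- the factor of the first vertex of a pair with `2 j` other vertices -/
noncomputable def fa (d j : ℕ) : ℝ := FF (2 * j) (d - 2 * j) (2 * j * (1 - rh d (2 * j)))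

/-- the factor of the second vertex of a pair with `2 j` other vertices -/
noncomputable def ga (d j : ℕ) : ℝ := FF (2 * j) (d - 2 * j) (2 * j * (1 - rh d (2 * j - 1)))

theorem FF_even (j M : ℕ) (r : ℝ) :
    FF (2 * j) M (2 * j * (1 - r)) = BN j (if j = 0 then 0 else 1 - r) (M / 2) := by
  unfold FF
  have h1 : 2 * j / 2 = j := by omega
  have h2 : 2 * j % 2 = 0 := by omega
  rw [h1, h2, Nat.cast_zero, sub_zero, add_zero]
  by_cases hj : j = 0
  · subst hj
    simp
  · rw [if_neg hj]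
    have hj' : (j : ℝ) ≠ 0 := by exact_mod_cast hj
    congr 1
    field_simp

theorem rh_mem {d j : ℕ} (hd : 2 ≤ d) (h1 : 1 ≤ j) (h2 : j ≤ d) : 0 ≤ rh d j ∧ rh d j ≤ 1 := by
  have a1 : (1 : ℝ) ≤ j := by exact_mod_cast h1
  have a2 : (j : ℝ) ≤ d := by exact_mod_cast h2
  have a3 : (2 : ℝ) ≤ d := by exact_mod_cast hd
  have a4 : (0 : ℝ) < (d : ℝ) - 1 := by linarith
  have a5 : (0 : ℝ) < (d : ℝ) - j + 1 := by linarith
  unfold rh
  refine ⟨div_nonneg (by linarith) (mul_pos a4 a5).le, ?_⟩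
  rw [div_le_one (mul_pos a4 a5)]
  nlinarith

theorem fa_nonneg {d j : ℕ} (hd : 2 ≤ d) (hj : 2 * j ≤ d) : 0 ≤ fa d j := by
  unfold fa
  apply FF_nonneg
  push_cast
  rcases Nat.eq_zero_or_pos j with h | h
  · subst h
    simp
  · have h1 := rh_mem hd (show 1 ≤ 2 * j by omega) hj
    have h2 : (0 : ℝ) ≤ 2 * j := by positivity
    nlinarith [mul_nonneg h2 h1.1]

theorem ga_nonneg {d j : ℕ} (hd : 2 ≤ d) (hj : 2 * j ≤ d) : 0 ≤ ga d j := by
  unfold ga
  apply FF_nonneg
  push_cast
  rcases Nat.eq_zero_or_pos j with h | h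
  · subst h
    simp
  · have h1 := rh_mem hd (show 1 ≤ 2 * j - 1 by omega) (show 2 * j - 1 ≤ d by omega)
    have h2 : (0 : ℝ) ≤ 2 * j := by positivity
    nlinarith [mul_nonneg h2 h1.1]

/-! ### The partner of a vertex -/

omit [Fintype V] [DecidableEq E] in
private theorem mem_nb' {hd : E → Bool → V} {A : Finset V} {w u : V} :
    u ∈ nb hd A w ↔ u ∈ A ∧ Adj hd w u := by
  unfold nb
  rw [mem_filter]

/-- `s` is the partner map of a cocktail party graph -/
structure Partner (hd : E → Bool → V) (s : V → V) : Prop where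
  ne : ∀ v, s v ≠ v
  not_adj : ∀ v, ¬ Adj hd v (s v)
  adj : ∀ v u, u ≠ v → u ≠ s v → Adj hd v u

omit [DecidableEq E] in
theorem kk_univ (hd : E → Bool → V) (v : V) : kk hd univ v = deg hd v := by
  unfold kk KL.btw deg
  simp

theorem exists_partner {hd : E → Bool → V} (hs : Simple hd) {d : ℕ}
    (hdeg : ∀ v, deg hd v = d)
    (hcard : Fintype.card V = d + 2) : ∃ s : V → V, Partner hd s := by
  have h1 : ∀ v : V, ∃ s : V, univ \ insert v (nb hd univ v) = {s} := by
    intro v
    have hv : v ∉ nb hd univ v := by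
      intro h
      exact Adj.ne hs (mem_nb'.1 h).2 rfl
    rw [← card_eq_one, card_sdiff_of_subset (subset_univ _), card_univ, card_insert_of_notMem hv,
      card_nb hs, kk_univ, hdeg, hcard]
    omega
  choose s h2 using h1
  have h3 : ∀ v u, u = s v ↔ u ≠ v ∧ ¬ Adj hd v u := by
    intro v u
    have h4 : u ∈ univ \ insert v (nb hd univ v) ↔ u = s v := by
      rw [h2 v, mem_singleton]
    rw [← h4, mem_sdiff, mem_insert, mem_nb']
    simp only [mem_univ, true_and, not_or]
  refine ⟨s, fun v => ((h3 v (s v)).1 rfl).1, fun v => ((h3 v (s v)).1 rfl).2, fun v u h4 h5 => ?_⟩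
  by_contra h6
  exact h5 ((h3 v u).2 ⟨h4, h6⟩)

theorem Partner.invol {hd : E → Bool → V} {s : V → V} (h : Partner hd s) (v : V) :
    s (s v) = v := by
  by_contra h1
  exact h.not_adj v (Adj.symm (h.adj (s v) v (fun h2 => h.ne v h2.symm) (fun h2 => h1 h2.symm)))

theorem Partner.nb_eq {hd : E → Bool → V} (hs : Simple hd) {s : V → V} (h : Partner hd s)
    (A : Finset V) (v : V) : nb hd A v = (A.erase v).erase (s v) := by
  ext u
  rw [mem_nb', mem_erase, mem_erase]
  constructor
  · rintro ⟨h1, h2⟩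
    exact ⟨fun h3 => h.not_adj v (h3 ▸ h2), Adj.ne hs h2, h1⟩
  · rintro ⟨h1, h2, h3⟩
    exact ⟨h3, h.adj v u h2 h1⟩

/-- deletion of a pair -/
theorem pair_step {hd : E → Bool → V} (hs : Simple hd) {d : ℕ} (hde : Even d)
    (hdeg : ∀ v, deg hd v = d) {s : V → V} (h : Partner hd s) {A : Finset V}
    (hA : ∀ v ∈ A, s v ∈ A) {j : ℕ} (hj : A.card = 2 * j + 2) {w : V}
    (hw : w ∈ A) :
    PA hd A ≤ fa d j * PA hd (A.erase w) ∧
      PA hd (A.erase w) ≤ ga d j * PA hd ((A.erase w).erase (s w)) := by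
  have hev : ∀ v, Even (deg hd v) := fun v => by rw [hdeg]; exact hde
  have hk : ∀ v ∈ A, kk hd A v = 2 * j := by
    intro v hv
    rw [← card_nb hs, h.nb_eq hs, card_erase_of_mem, card_erase_of_mem hv, hj]
    · omega
    · exact mem_erase.2 ⟨h.ne v, hA v hv⟩
  have hsw : s w ∈ A.erase w := mem_erase.2 ⟨h.ne w, hA w hw⟩
  have hk1 : kk hd (A.erase w) (s w) = 2 * j := by
    have h1 := kk_erase hs hw (s w)
    rw [if_neg (h.not_adj w), add_zero, hk _ (hA w hw)] at h1
    exact h1.symm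
  constructor
  · have h1 := PA_step hs hev hw
    have h2 : ∑ u ∈ nb hd A w, rh (deg hd u) (kk hd A u) = 2 * j * rh d (2 * j) := by
      rw [sum_congr rfl (g := fun _ => rh d (2 * j)), sum_const, card_nb hs, hk w hw, nsmul_eq_mul]
      · push_cast
        ring
      · intro u hu
        rw [hdeg, hk u (mem_nb'.1 hu).1]
    rw [h2, hk w hw, hdeg] at h1
    have h3 : (((2 * j : ℕ) : ℝ) - 2 * j * rh d (2 * j)) = 2 * j * (1 - rh d (2 * j)) := by
      push_cast
      ring
    rw [h3] at h1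
    exact h1
  · have h1 := PA_step hs hev hsw
    have h2 : ∑ u ∈ nb hd (A.erase w) (s w), rh (deg hd u) (kk hd (A.erase w) u) =
        2 * j * rh d (2 * j - 1) := by
      rw [sum_congr rfl (g := fun _ => rh d (2 * j - 1)), sum_const, card_nb hs, hk1, nsmul_eq_mul]
      · push_cast
        ring
      · intro u hu
        have hu1 := mem_nb'.1 hu
        have hu2 : u ≠ w := (mem_erase.1 hu1.1).1
        have hu3 : u ∈ A := (mem_erase.1 hu1.1).2
        have hu4 : Adj hd w u := h.adj w u hu2 (Adj.ne hs hu1.2)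
        have h4 := kk_erase hs hw u
        rw [if_pos hu4, hk u hu3] at h4
        rw [hdeg]
        congr 1
        omega
    rw [h2, hk1, hdeg] at h1
    have h3 : (((2 * j : ℕ) : ℝ) - 2 * j * rh d (2 * j - 1)) = 2 * j * (1 - rh d (2 * j - 1)) := by
      push_cast
      ring
    rw [h3] at h1
    exact h1

/-- the product of the factors of `j` pairs -/
noncomputable def CP (d j : ℕ) : ℝ := ∏ i ∈ range j, fa d i * ga d i

theorem pairs_le {hd : E → Bool → V} (hs : Simple hd) {d : ℕ} (hd2 : 2 ≤ d) (hde : Even d)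
    (hdeg : ∀ v, deg hd v = d) {s : V → V} (h : Partner hd s) (j : ℕ) : ∀ A : Finset V,
    (∀ v ∈ A, s v ∈ A) → A.card = 2 * j → 2 * j ≤ d + 2 → PA hd A ≤ CP d j := by
  induction j with
  | zero =>
    intro A _ hA _
    have h1 : A = ∅ := card_eq_zero.1 hA
    rw [h1, PA_empty]
    simp [CP]
  | succ j ih =>
    intro A hA hc hle
    have hne : A.Nonempty := by
      rw [← card_pos, hc]
      omega
    obtain ⟨w, hw⟩ := hne
    obtain ⟨h1, h2⟩ := pair_step hs hde hdeg h hA (j := j) (by rw [hc]; ring) hw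
    have h3 := fa_nonneg hd2 (show 2 * j ≤ d by omega)
    have h4 := ga_nonneg hd2 (show 2 * j ≤ d by omega)
    have hsw : s w ∈ A.erase w := mem_erase.2 ⟨h.ne w, hA w hw⟩
    have h5 : ((A.erase w).erase (s w)).card = 2 * j := by
      rw [card_erase_of_mem hsw, card_erase_of_mem hw, hc]
      omega
    have h6 : ∀ v ∈ (A.erase w).erase (s w), s v ∈ (A.erase w).erase (s w) := by
      intro v hv
      rw [mem_erase, mem_erase] at hv ⊢
      obtain ⟨hv1, hv2, hv3⟩ := hv
      refine ⟨fun h7 => hv2 ?_, fun h7 => hv1 ?_, hA v hv3⟩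
      · rw [← h.invol v, h7, h.invol w]
      · rw [← h7, h.invol]
    have h7 := ih _ h6 h5 (by omega)
    unfold CP
    rw [prod_range_succ]
    calc PA hd A ≤ fa d j * PA hd (A.erase w) := h1
      _ ≤ fa d j * (ga d j * PA hd ((A.erase w).erase (s w))) := mul_le_mul_of_nonneg_left h2 h3
      _ ≤ fa d j * (ga d j * CP d j) :=
        mul_le_mul_of_nonneg_left (mul_le_mul_of_nonneg_left h7 h4) h3
      _ = (∏ i ∈ range j, fa d i * ga d i) * (fa d j * ga d j) := by
        unfold CP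
        ring

/-- **The chain bound for the cocktail party graph.** -/
theorem chain_le {hd : E → Bool → V} (hs : Simple hd) {m : ℕ} (hm : 1 ≤ m)
    (hdeg : ∀ v, deg hd v = 2 * m)
    (hcard : Fintype.card V = 2 * m + 2) : PA hd univ ≤ ga (2 * m) m * CP (2 * m) m := by
  obtain ⟨s, h⟩ := exists_partner hs hdeg hcard
  have hne : Nonempty V := by
    rw [← Fintype.card_pos_iff, hcard]
    omega
  obtain ⟨w⟩ := hne
  have hde : Even (2 * m) := even_two_mul m
  have hc1 : (univ : Finset V).card = 2 * m + 2 := by rw [card_univ, hcard]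
  obtain ⟨h1, h2⟩ := pair_step hs hde hdeg h
    (A := univ) (fun _ _ => mem_univ _) hc1 (mem_univ w)
  have h3 : PA hd univ ≤ PA hd (univ.erase w) := PA_mono (erase_subset _ _)
  have h4 := ga_nonneg (show 2 ≤ 2 * m by omega) (le_refl (2 * m))
  have h5 : ((univ.erase w).erase (s w)).card = 2 * m := by
    rw [card_erase_of_mem (mem_erase.2 ⟨h.ne w, mem_univ _⟩), card_erase_of_mem (mem_univ w), hc1]
    omega
  have h6 : ∀ v ∈ (univ.erase w).erase (s w), s v ∈ (univ.erase w).erase (s w) := by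
    intro v hv
    rw [mem_erase, mem_erase] at hv ⊢
    obtain ⟨hv1, hv2, hv3⟩ := hv
    refine ⟨fun h7 => hv2 ?_, fun h7 => hv1 ?_, mem_univ _⟩
    · rw [← h.invol v, h7, h.invol w]
    · rw [← h7, h.invol]
  have h7 := pairs_le hs (show 2 ≤ 2 * m by omega) hde hdeg h m _ h6 h5 (by omega)
  exact h3.trans (h2.trans (mul_le_mul_of_nonneg_left h7 h4))

end MP_a3e05c_co.CK
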